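import Mathlib

/-!
# Upper minus domination versus signed domination in cubic graphs

A connected cubic graph on 16 vertices with a minimal minus dominating function of weight 9 and
a signed dominating function of weight 8.
-/

set_option autoImplicit false

namespace Pool.Agent.Results.MP_260dff_co.CubicCounterexample

variable {V : Type} [Fintype V] [DecidableEq V]

/-- `f(N[v])`: the sum of `f` over the closed neighbourhood of `v`. -/
def closedSum (G : SimpleGraph V) [DecidableRel G.Adj] (f : V → ℤ) (v : V) : ℤ :=
  ∑ u, if u = v ∨ G.Adj v u then f u else 0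

/-- The weight of a function. -/
def weight (f : V → ℤ) : ℤ := ∑ v, f v

/-- A signed dominating function: values in `{-1, 1}`, all closed neighbourhood sums at
least `1`. -/
def SignedDominating (G : SimpleGraph V) [DecidableRel G.Adj] (f : V → ℤ) : Prop :=
  (∀ v, f v = -1 ∨ f v = 1) ∧ ∀ v, 1 ≤ closedSum G f v

/-- A minus dominating function: values in `{-1, 0, 1}`, all closed neighbourhood sums at
least `1`. -/
def MinusDominating (G : SimpleGraph V) [DecidableRel G.Adj] (f : V → ℤ) : Prop :=
  (∀ v, f v = -1 ∨ f v = 0 ∨ f v = 1) ∧ ∀ v, 1 ≤ closedSum G f v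

/-- A minimal minus dominating function: no other minus dominating function lies below it. -/
def MinimalMinusDominating (G : SimpleGraph V) [DecidableRel G.Adj] (f : V → ℤ) : Prop :=
  MinusDominating G f ∧ ∀ g : V → ℤ, MinusDominating G g → (∀ v, g v ≤ f v) → g = f

/-- The signed domination number: the minimum weight of a signed dominating function. -/
noncomputable def signedNum (G : SimpleGraph V) [DecidableRel G.Adj] : ℤ :=
  sInf {w | ∃ f : V → ℤ, SignedDominating G f ∧ weight f = w}

/-- The upper minus domination number: the maximum weight of a minimal minus dominating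
function. -/
noncomputable def upperMinusNum (G : SimpleGraph V) [DecidableRel G.Adj] : ℤ :=
  sSup {w | ∃ f : V → ℤ, MinimalMinusDominating G f ∧ weight f = w}

theorem minimal_of_tight (G : SimpleGraph V) [DecidableRel G.Adj] {f : V → ℤ}
    (hf : MinusDominating G f)
    (h : ∀ v, f v = -1 ∨ ∃ u, (v = u ∨ G.Adj u v) ∧ closedSum G f u = 1) :
    MinimalMinusDominating G f := by
  refine ⟨hf, fun g hg hle => ?_⟩
  funext v
  by_contra hne
  have hlt : g v < f v := lt_of_le_of_ne (hle v) hne
  rcases h v with h1 | ⟨u, hu, hu1⟩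
  · rcases hg.1 v with h2 | h2 | h2 <;> omega
  · have h3 : closedSum G g u < closedSum G f u := by
      unfold closedSum
      refine Finset.sum_lt_sum (fun i _ => ?_) ⟨v, Finset.mem_univ _, ?_⟩
      · split_ifs
        · exact hle i
        · exact le_rfl
      · rw [if_pos hu, if_pos hu]
        exact hlt
    have h4 := hg.2 u
    omega

omit [DecidableEq V] in
theorem weight_bounds {f : V → ℤ} (h : ∀ v, -1 ≤ f v ∧ f v ≤ 1) :
    -(Fintype.card V : ℤ) ≤ weight f ∧ weight f ≤ Fintype.card V := by
  unfold weight
  constructor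
  · calc -(Fintype.card V : ℤ) = ∑ _v : V, (-1 : ℤ) := by simp
      _ ≤ _ := Finset.sum_le_sum fun v _ => (h v).1
  · calc ∑ v, f v ≤ ∑ _v : V, (1 : ℤ) := Finset.sum_le_sum fun v _ => (h v).2
      _ = _ := by simp

/-- the neighbours -/
def nb : Fin 16 → List (Fin 16) :=
  ![[5, 12, 15], [8, 9, 11], [3, 10, 15], [2, 6, 13], [7, 13, 15], [0, 8, 14], [3, 9, 10], [4, 10, 12], [1, 5, 11], [1, 6, 14], [2, 6, 7], [1, 8, 12], [0, 7, 11], [3, 4, 14], [5, 9, 13], [0, 2, 4]]

/-- the graph -/
def G : SimpleGraph (Fin 16) where
  Adj a b := b ∈ nb a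
  symm := ⟨by decide⟩
  loopless := ⟨by decide⟩

instance : DecidableRel G.Adj := fun a b => inferInstanceAs (Decidable (b ∈ nb a))

/-- the signed dominating function of weight 8 -/
def gs : Fin 16 → ℤ := ![-1, -1, 1, 1, 1, 1, 1, 1, 1, 1, -1, 1, 1, -1, 1, 1]

/-- the minimal minus dominating function of weight 9 -/
def fm : Fin 16 → ℤ := ![1, -1, -1, 1, 1, 1, 0, 1, 1, 1, 1, 0, 1, 1, 1, 0]

/-- parents in a spanning tree rooted at `0` -/
def par : Fin 16 → Fin 16 := ![0, 8, 15, 2, 15, 0, 9, 12, 5, 14, 7, 12, 0, 14, 5, 0]

theorem reach (k : ℕ) (v : Fin 16) : G.Reachable v (par^[k] v) := by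
  induction k with
  | zero => exact SimpleGraph.Reachable.refl _
  | succ k ih =>
    rw [Function.iterate_succ_apply']
    have h : ∀ v, par v = v ∨ G.Adj v (par v) := by decide +kernel
    rcases h (par^[k] v) with h | h
    · rw [h]
      exact ih
    · exact ih.trans h.reachable

theorem connected_G : G.Connected := by
  have h : ∀ v, G.Reachable v 0 := by
    intro v
    have h1 : par^[5] v = 0 := by
      revert v
      decide +kernel
    rw [← h1]
    exact reach 5 v
  exact ⟨fun u v => (h u).trans (h v).symm⟩

/-- There is a connected cubic graph `G` with `Γ⁻(G) > γ_s(G)`. -/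
theorem result : ∃ (V : Type) (_ : Fintype V) (_ : DecidableEq V) (G : SimpleGraph V)
    (_ : DecidableRel G.Adj), G.Connected ∧ G.IsRegularOfDegree 3 ∧
      signedNum G < upperMinusNum G := by
  refine ⟨Fin 16, inferInstance, inferInstance, G, inferInstance, connected_G, ?_, ?_⟩
  · intro v
    revert v
    decide +kernel
  · have h1 : signedNum G ≤ 8 := by
      refine csInf_le ⟨-16, ?_⟩ ⟨gs, ⟨by decide +kernel, by decide +kernel⟩, by decide +kernel⟩
      rintro w ⟨f, hf, rfl⟩
      have := (weight_bounds (f := f) fun v => by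
        rcases hf.1 v with h | h <;> omega).1
      simpa using this
    have h2 : 9 ≤ upperMinusNum G := by
      refine le_csSup ⟨16, ?_⟩ ⟨fm, minimal_of_tight G ⟨by decide +kernel, by decide +kernel⟩
        (by decide +kernel), by decide +kernel⟩
      rintro w ⟨f, hf, rfl⟩
      have := (weight_bounds (f := f) fun v => by
        rcases hf.1.1 v with h | h | h <;> omega).2
      simpa using this
    omega

end Pool.Agent.Results.MP_260dff_co.CubicCounterexample
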